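import Mathlib

/-!
Triangle-rigid sets of triples and corner-free sets in `F_2^n × F_2^n`.
-/

namespace Pool.Agent.H523R2.Corner

open Finset

/-- `A ⊆ G × G` contains no nontrivial corner `(x,y), (x,y+z), (x+z,y)`, `z ≠ 0`. -/
def CornerFree {G : Type*} [AddCommGroup G] (A : Finset (G × G)) : Prop :=
  ∀ x y z : G, z ≠ 0 → ¬ ((x, y) ∈ A ∧ (x, y + z) ∈ A ∧ (x + z, y) ∈ A)

/-- Triples summing to zero such that every triangle of members is trivial. -/
structure TF {G : Type*} [AddCommGroup G] (T : Finset (G × G × G)) : Prop where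
  sum : ∀ t ∈ T, t.1 + t.2.1 + t.2.2 = 0
  tri : ∀ a ∈ T, ∀ b ∈ T, ∀ c ∈ T, a.1 = b.1 → a.2.1 = c.2.1 → b.2.2 = c.2.2 → a.2.2 = b.2.2

/-- existence of a rigid set with given size and projections of bounded size -/
def HasTF (G : Type*) [AddCommGroup G] [DecidableEq G] (t a b c : ℕ) : Prop :=
  ∃ T : Finset (G × G × G), TF T ∧ T.card = t ∧ (T.image (fun t => t.1)).card ≤ a ∧
    (T.image (fun t => t.2.1)).card ≤ b ∧ (T.image (fun t => t.2.2)).card ≤ c

variable {G H : Type*} [AddCommGroup G] [DecidableEq G] [AddCommGroup H] [DecidableEq H]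

lemma HasTF.rot {t a b c : ℕ} (h : HasTF G t a b c) : HasTF G t b c a := by
  obtain ⟨T, hT, ht, ha, hb, hc⟩ := h
  let f : G × G × G → G × G × G := fun t => (t.2.1, t.2.2, t.1)
  have hf : Function.Injective f := by
    rintro ⟨x, y, z⟩ ⟨x', y', z'⟩ h
    simp only [f, Prod.mk.injEq] at h
    simp [h.1, h.2.1, h.2.2]
  refine ⟨T.image f, ⟨?_, ?_⟩, ?_, ?_, ?_, ?_⟩
  · intro t ht
    obtain ⟨s, hs, rfl⟩ := mem_image.1 ht
    have := hT.sum s hs
    simp only [f]
    rw [← this]; abel
  · intro a' ha' b' hb' c' hc' h1 h2 h3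
    obtain ⟨a, ha, rfl⟩ := mem_image.1 ha'
    obtain ⟨b, hb, rfl⟩ := mem_image.1 hb'
    obtain ⟨c, hc, rfl⟩ := mem_image.1 hc'
    simp only [f] at h1 h2 h3 ⊢
    have h4 := hT.tri b hb c hc a ha h3 h1.symm h2.symm
    have e1 := hT.sum a ha
    have e2 := hT.sum b hb
    have h5 : a.2.2 = b.2.2 := by rw [h2, h4]
    rw [h1, h5] at e1
    have : a.1 + b.2.1 + b.2.2 = b.1 + b.2.1 + b.2.2 := by rw [e1, e2]
    simpa using this
  · rw [card_image_of_injective _ hf, ht]
  · rw [image_image]; exact hb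
  · rw [image_image]; exact hc
  · rw [image_image]; exact ha

lemma HasTF.prod {t a b c t' a' b' c' : ℕ} (h : HasTF G t a b c) (h' : HasTF H t' a' b' c') :
    HasTF (G × H) (t * t') (a * a') (b * b') (c * c') := by
  obtain ⟨T, hT, ht, ha, hb, hc⟩ := h
  obtain ⟨T', hT', ht', ha', hb', hc'⟩ := h'
  let f : (G × G × G) × (H × H × H) → (G × H) × (G × H) × (G × H) :=
    fun t => ((t.1.1, t.2.1), (t.1.2.1, t.2.2.1), (t.1.2.2, t.2.2.2))
  have hf : Function.Injective f := by
    rintro ⟨⟨x, y, z⟩, ⟨u, v, w⟩⟩ ⟨⟨x', y', z'⟩, ⟨u', v', w'⟩⟩ h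
    simp only [f, Prod.mk.injEq] at h
    obtain ⟨⟨h1, h2⟩, ⟨h3, h4⟩, h5, h6⟩ := h
    simp [*]
  refine ⟨(T ×ˢ T').image f, ⟨?_, ?_⟩, ?_, ?_, ?_, ?_⟩
  · intro t ht
    obtain ⟨s, hs, rfl⟩ := mem_image.1 ht
    rw [mem_product] at hs
    have h1 := hT.sum s.1 hs.1
    have h2 := hT'.sum s.2 hs.2
    simp only [f, Prod.mk_add_mk, h1, h2]
    rfl
  · intro a' ha' b' hb' c' hc' h1 h2 h3
    obtain ⟨a, ha, rfl⟩ := mem_image.1 ha'
    obtain ⟨b, hb, rfl⟩ := mem_image.1 hb'
    obtain ⟨c, hc, rfl⟩ := mem_image.1 hc'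
    rw [mem_product] at ha hb hc
    simp only [f, Prod.mk.injEq] at h1 h2 h3 ⊢
    exact ⟨hT.tri _ ha.1 _ hb.1 _ hc.1 h1.1 h2.1 h3.1, hT'.tri _ ha.2 _ hb.2 _ hc.2 h1.2 h2.2 h3.2⟩
  · rw [card_image_of_injective _ hf, card_product, ht, ht']
  · calc _ ≤ ((T.image (fun t => t.1)) ×ˢ (T'.image (fun t => t.1))).card := by
          apply card_le_card
          intro x hx
          rw [image_image, mem_image] at hx
          obtain ⟨s, hs, rfl⟩ := hx
          rw [mem_product] at hs
          rw [mem_product]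
          exact ⟨mem_image_of_mem _ hs.1, mem_image_of_mem _ hs.2⟩
      _ ≤ _ := by rw [card_product]; exact Nat.mul_le_mul ha ha'
  · calc _ ≤ ((T.image (fun t => t.2.1)) ×ˢ (T'.image (fun t => t.2.1))).card := by
          apply card_le_card
          intro x hx
          rw [image_image, mem_image] at hx
          obtain ⟨s, hs, rfl⟩ := hx
          rw [mem_product] at hs
          rw [mem_product]
          exact ⟨mem_image_of_mem (fun t : G × G × G => t.2.1) hs.1,
            mem_image_of_mem (fun t : H × H × H => t.2.1) hs.2⟩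
      _ ≤ _ := by rw [card_product]; exact Nat.mul_le_mul hb hb'
  · calc _ ≤ ((T.image (fun t => t.2.2)) ×ˢ (T'.image (fun t => t.2.2))).card := by
          apply card_le_card
          intro x hx
          rw [image_image, mem_image] at hx
          obtain ⟨s, hs, rfl⟩ := hx
          rw [mem_product] at hs
          rw [mem_product]
          exact ⟨mem_image_of_mem (fun t : G × G × G => t.2.2) hs.1,
            mem_image_of_mem (fun t : H × H × H => t.2.2) hs.2⟩
      _ ≤ _ := by rw [card_product]; exact Nat.mul_le_mul hc hc'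

/-- the function-space power of a rigid set -/
lemma HasTF.pow {t a b c : ℕ} (h : HasTF G t a b c) (M : ℕ) :
    HasTF (Fin M → G) (t ^ M) (a ^ M) (b ^ M) (c ^ M) := by
  obtain ⟨T, hT, ht, ha, hb, hc⟩ := h
  let f : (Fin M → G × G × G) → (Fin M → G) × (Fin M → G) × (Fin M → G) :=
    fun t => (fun i => (t i).1, fun i => (t i).2.1, fun i => (t i).2.2)
  have hf : Function.Injective f := by
    intro s t h
    simp only [f, Prod.mk.injEq] at h
    obtain ⟨h1, h2, h3⟩ := h
    funext i
    exact Prod.ext (congrFun h1 i) (Prod.ext (congrFun h2 i) (congrFun h3 i))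
  have key : ∀ (π : G × G × G → G) (k : ℕ), (T.image π).card ≤ k →
      (((Fintype.piFinset fun _ : Fin M => T).image
        (fun s : Fin M → G × G × G => fun i => π (s i))).card ≤ k ^ M) := by
    intro π k hk
    calc _ ≤ (Fintype.piFinset fun _ : Fin M => T.image π).card := by
          apply card_le_card
          intro x hx
          obtain ⟨s, hs, rfl⟩ := mem_image.1 hx
          rw [Fintype.mem_piFinset] at hs ⊢
          intro i
          exact mem_image_of_mem _ (hs i)
      _ ≤ k ^ M := by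
          rw [Fintype.card_piFinset, prod_const, card_univ, Fintype.card_fin]
          exact Nat.pow_le_pow_left hk M
  refine ⟨(Fintype.piFinset fun _ : Fin M => T).image f, ⟨?_, ?_⟩, ?_, ?_, ?_, ?_⟩
  · intro t ht
    obtain ⟨s, hs, rfl⟩ := mem_image.1 ht
    rw [Fintype.mem_piFinset] at hs
    funext i
    exact hT.sum _ (hs i)
  · intro a' ha' b' hb' c' hc' h1 h2 h3
    obtain ⟨a, ha, rfl⟩ := mem_image.1 ha'
    obtain ⟨b, hb, rfl⟩ := mem_image.1 hb'
    obtain ⟨c, hc, rfl⟩ := mem_image.1 hc'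
    rw [Fintype.mem_piFinset] at ha hb hc
    funext i
    exact hT.tri _ (ha i) _ (hb i) _ (hc i) (congrFun h1 i) (congrFun h2 i) (congrFun h3 i)
  · rw [card_image_of_injective _ hf, Fintype.card_piFinset, prod_const, card_univ,
      Fintype.card_fin, ht]
  · rw [image_image]; exact key (fun t => t.1) a ha
  · rw [image_image]; exact key (fun t => t.2.1) b hb
  · rw [image_image]; exact key (fun t => t.2.2) c hc

end Pool.Agent.H523R2.Corner
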