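import Pool.Agent.H523R2.Corner.Main

/-!
Numerical form of peeling certificates, suitable for kernel computation.
-/

namespace Pool.Agent.H523R2.Corner

open Finset

/-- the vector of the `k` lowest binary digits -/
def bits (k x : ℕ) : Fin k → ZMod 2 := fun i => if x.testBit i then 1 else 0

/-- number with given binary digits -/
def idx {k : ℕ} (v : Fin k → ZMod 2) : ℕ := ∑ i, (v i).val * 2 ^ (i : ℕ)

lemma bits_inj {k x y : ℕ} (hx : x < 2 ^ k) (hy : y < 2 ^ k) (h : bits k x = bits k y) :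
    x = y := by
  apply Nat.eq_of_testBit_eq
  intro i
  by_cases hi : i < k
  · have := congrFun h ⟨i, hi⟩
    simp only [bits] at this
    by_cases h1 : x.testBit i <;> by_cases h2 : y.testBit i <;> simp_all
  · push Not at hi
    rw [Nat.testBit_lt_two_pow (hx.trans_le (Nat.pow_le_pow_right (by norm_num) hi)),
      Nat.testBit_lt_two_pow (hy.trans_le (Nat.pow_le_pow_right (by norm_num) hi))]

lemma bits_sum (k x y : ℕ) : bits k x + bits k y + bits k (x ^^^ y) = 0 := by
  funext i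
  simp only [bits, Pi.add_apply, Nat.testBit_xor, Pi.zero_apply]
  cases x.testBit i <;> cases y.testBit i <;> decide

theorem cert_of_codes {k m : ℕ} (xc yc ce : ℕ → ℕ)
    (hx : ∀ s < m, xc s < 2 ^ k) (hy : ∀ s < m, yc s < 2 ^ k)
    (hinj : ∀ s < m, ∀ t < m, xc s = xc t → yc s = yc t → s = t)
    (h0 : ∀ a < m, ce a = 0 → ∀ b < m, a < b → xc a = xc b → ∀ c < m, a < c → yc a = yc c →
      xc b ^^^ yc b ≠ xc c ^^^ yc c)
    (h1 : ∀ b < m, ce b = 1 → ∀ a < m, b < a → xc a = xc b → ∀ c < m, b < c → yc a = yc c →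
      xc b ^^^ yc b ≠ xc c ^^^ yc c)
    (h2 : ∀ c < m, ce c = 2 → ∀ a < m, c < a → yc a = yc c → ∀ b < m, c < b → xc a = xc b →
      xc b ^^^ yc b ≠ xc c ^^^ yc c)
    (hce : ∀ s < m, ce s < 3) :
    Cert (fun s : Fin m => bits k (xc s)) (fun s => bits k (yc s))
      (fun s => bits k (xc s ^^^ yc s))
      (fun s => if ce s = 0 then 0 else if ce s = 1 then 1 else 2) := by
  have hz : ∀ s < m, xc s ^^^ yc s < 2 ^ k := fun s hs => Nat.xor_lt_two_pow (hx s hs) (hy s hs)
  have ex : ∀ a b : Fin m, bits k (xc a) = bits k (xc b) → xc a = xc b := fun a b h =>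
    bits_inj (hx a a.2) (hx b b.2) h
  have ey : ∀ a b : Fin m, bits k (yc a) = bits k (yc b) → yc a = yc b := fun a b h =>
    bits_inj (hy a a.2) (hy b b.2) h
  have ez : ∀ a b : Fin m, bits k (xc a ^^^ yc a) = bits k (xc b ^^^ yc b) →
      xc a ^^^ yc a = xc b ^^^ yc b := fun a b h => bits_inj (hz a a.2) (hz b b.2) h
  have inj1 : ∀ s t : Fin m, xc s = xc t → yc s = yc t → s = t := fun s t h h' =>
    Fin.ext (hinj s s.2 t t.2 h h')
  have inj2 : ∀ s t : Fin m, xc s = xc t → xc s ^^^ yc s = xc t ^^^ yc t → s = t := by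
    intro s t h h'
    refine inj1 s t h ?_
    rw [h] at h'
    exact Nat.xor_right_injective h'
  have inj3 : ∀ s t : Fin m, yc s = yc t → xc s ^^^ yc s = xc t ^^^ yc t → s = t := by
    intro s t h h'
    refine inj1 s t ?_ h
    rw [h] at h'
    exact Nat.xor_left_injective h'
  refine ⟨fun s => bits_sum k _ _, fun s t h h' => inj1 s t (ex s t h) (ey s t h'), ?_, ?_, ?_⟩
  · intro a b c hX hY hZ hab hac hcert
    have hX' := ex _ _ hX
    have hY' := ey _ _ hY
    have hZ' := ez _ _ hZ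
    have hc0 : ce a = 0 := by
      by_contra hne
      simp only [if_neg hne] at hcert
      split_ifs at hcert <;> exact absurd hcert (by decide)
    rcases hab.eq_or_lt with rfl | hab
    · exact ⟨rfl, (inj3 _ _ hY' hZ').symm⟩
    rcases hac.eq_or_lt with rfl | hac
    · exact ⟨(inj2 _ _ hX' hZ'.symm).symm, rfl⟩
    exact absurd hZ' (h0 a a.2 hc0 b b.2 hab hX' c c.2 hac hY')
  · intro a b c hX hY hZ hba hbc hcert
    have hX' := ex _ _ hX
    have hY' := ey _ _ hY
    have hZ' := ez _ _ hZ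
    have hc1 : ce b = 1 := by
      split_ifs at hcert with q1 q2
      · exact absurd hcert (by decide)
      · exact q2
      · exact absurd hcert (by decide)
    rcases hba.eq_or_lt with rfl | hba
    · exact ⟨rfl, (inj3 _ _ hY' hZ').symm⟩
    rcases hbc.eq_or_lt with rfl | hbc
    · exact ⟨inj1 _ _ hX' hY', rfl⟩
    exact absurd hZ' (h1 b b.2 hc1 a a.2 hba hX' c c.2 hbc hY')
  · intro a b c hX hY hZ hca hcb hcert
    have hX' := ex _ _ hX
    have hY' := ey _ _ hY
    have hZ' := ez _ _ hZ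
    have hc2 : ce c = 2 := by
      split_ifs at hcert with q1 q2
      · exact absurd hcert (by decide)
      · exact absurd hcert (by decide)
      · have := hce c c.2
        omega
    rcases hca.eq_or_lt with rfl | hca
    · exact ⟨rfl, (inj2 _ _ hX' hZ'.symm).symm⟩
    rcases hcb.eq_or_lt with rfl | hcb
    · exact ⟨inj1 _ _ hX' hY', rfl⟩
    exact absurd hZ' (h2 c c.2 hc2 a a.2 hca hY' b b.2 hcb hX')

/-- Numerical main theorem. -/
theorem main_codes {k m D p q : ℕ} (xc yc ce : ℕ → ℕ) (an bn cn : ℕ → ℕ)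
    (hD : 0 < D) (hp : 0 < p) (hq : 0 < q)
    (hx : ∀ s < m, xc s < 2 ^ k) (hy : ∀ s < m, yc s < 2 ^ k)
    (hinj : ∀ s < m, ∀ t < m, xc s = xc t → yc s = yc t → s = t)
    (h0 : ∀ a < m, ce a = 0 → ∀ b < m, a < b → xc a = xc b → ∀ c < m, a < c → yc a = yc c →
      xc b ^^^ yc b ≠ xc c ^^^ yc c)
    (h1 : ∀ b < m, ce b = 1 → ∀ a < m, b < a → xc a = xc b → ∀ c < m, b < c → yc a = yc c →
      xc b ^^^ yc b ≠ xc c ^^^ yc c)
    (h2 : ∀ c < m, ce c = 2 → ∀ a < m, c < a → yc a = yc c → ∀ b < m, c < b → xc a = xc b →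
      xc b ^^^ yc b ≠ xc c ^^^ yc c)
    (hce : ∀ s < m, ce s < 3)
    (ha : ∑ x : Fin k → ZMod 2, an (idx x) ^ p ≤ D ^ p)
    (hb : ∑ x : Fin k → ZMod 2, bn (idx x) ^ p ≤ D ^ p)
    (hc : ∑ x : Fin k → ZMod 2, cn (idx x) ^ p ≤ D ^ p)
    (hC : D ^ (3 * q) < ∑ s : Fin m, (an (idx (bits k (xc s))) * bn (idx (bits k (yc s)))
      * cn (idx (bits k (xc s ^^^ yc s)))) ^ q) :
    ∃ n0 : ℕ, ∀ n : ℕ, n0 ≤ n → ∃ S : Finset ((Fin n → ZMod 2) × (Fin n → ZMod 2)),
      CornerFree S ∧ 2 ^ (3 * q * n) ≤ S.card ^ p := by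
  have hD' : (0 : ℝ) < D := by exact_mod_cast hD
  have norm : ∀ f : ℕ → ℕ, ∑ x : Fin k → ZMod 2, f (idx x) ^ p ≤ D ^ p →
      ∑ x : Fin k → ZMod 2, ((f (idx x) : ℝ) / D) ^ p ≤ 1 := by
    intro f hf
    simp_rw [div_pow]
    rw [← sum_div, div_le_one (by positivity)]
    exact_mod_cast hf
  refine main (cert_of_codes xc yc ce hx hy hinj h0 h1 h2 hce)
    (fun x => (an (idx x) : ℝ) / D) (fun x => (bn (idx x) : ℝ) / D) (fun x => (cn (idx x) : ℝ) / D)
    (fun x => by positivity) (fun x => by positivity) (fun x => by positivity) p q hp hq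
    (norm an ha) (norm bn hb) (norm cn hc) ?_
  have e : ∀ s : Fin m, ((an (idx (bits k (xc s))) : ℝ) / D * ((bn (idx (bits k (yc s))) : ℝ) / D)
      * ((cn (idx (bits k (xc s ^^^ yc s))) : ℝ) / D)) ^ q
      = ((an (idx (bits k (xc s))) * bn (idx (bits k (yc s)))
        * cn (idx (bits k (xc s ^^^ yc s))) : ℕ) : ℝ) ^ q / (D : ℝ) ^ (3 * q) := by
    intro s
    rw [pow_mul, ← div_pow]
    congr 1
    push_cast
    field_simp
  rw [sum_congr rfl (fun s _ => e s), ← sum_div, one_lt_div (by positivity)]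
  exact_mod_cast hC

/-- Boolean test of a peeling certificate -/
def chk (k m : ℕ) (xc yc ce : ℕ → ℕ) : Bool :=
  (List.range m).all (fun a =>
    decide (xc a < 2 ^ k) && decide (yc a < 2 ^ k) && decide (ce a < 3) &&
    (List.range m).all (fun b => decide (a = b) || !decide (xc a = xc b) ||
      !decide (yc a = yc b)) &&
    (!decide (ce a = 0) || (List.range m).all (fun b => !decide (a < b) ||
      !decide (xc a = xc b) || (List.range m).all (fun c => !decide (a < c) ||
        !decide (yc a = yc c) || !decide (xc b ^^^ yc b = xc c ^^^ yc c)))) &&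
    (!decide (ce a = 1) || (List.range m).all (fun b => !decide (a < b) ||
      !decide (xc b = xc a) || (List.range m).all (fun c => !decide (a < c) ||
        !decide (yc b = yc c) || !decide (xc a ^^^ yc a = xc c ^^^ yc c)))) &&
    (!decide (ce a = 2) || (List.range m).all (fun b => !decide (a < b) ||
      !decide (yc b = yc a) || (List.range m).all (fun c => !decide (a < c) ||
        !decide (xc b = xc c) || !decide (xc c ^^^ yc c = xc a ^^^ yc a)))))

theorem main_chk {k m D p q : ℕ} (xc yc ce : ℕ → ℕ) (an bn cn : ℕ → ℕ)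
    (hD : 0 < D) (hp : 0 < p) (hq : 0 < q) (hchk : chk k m xc yc ce = true)
    (ha : ∑ x : Fin k → ZMod 2, an (idx x) ^ p ≤ D ^ p)
    (hb : ∑ x : Fin k → ZMod 2, bn (idx x) ^ p ≤ D ^ p)
    (hc : ∑ x : Fin k → ZMod 2, cn (idx x) ^ p ≤ D ^ p)
    (hC : D ^ (3 * q) < ∑ s : Fin m, (an (idx (bits k (xc s))) * bn (idx (bits k (yc s)))
      * cn (idx (bits k (xc s ^^^ yc s)))) ^ q) :
    ∃ n0 : ℕ, ∀ n : ℕ, n0 ≤ n → ∃ S : Finset ((Fin n → ZMod 2) × (Fin n → ZMod 2)),
      CornerFree S ∧ 2 ^ (3 * q * n) ≤ S.card ^ p := by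
  simp only [chk, List.all_eq_true, List.mem_range, Bool.and_eq_true, Bool.or_eq_true,
    Bool.not_eq_true', decide_eq_true_eq, decide_eq_false_iff_not] at hchk
  have H := fun a ha => (hchk a ha)
  refine main_codes xc yc ce an bn cn hD hp hq (fun s hs => (H s hs).1.1.1.1.1.1)
    (fun s hs => (H s hs).1.1.1.1.1.2) ?_ ?_ ?_ ?_ (fun s hs => (H s hs).1.1.1.1.2) ha hb hc hC
  · intro s hs t ht h h'
    rcases (H s hs).1.1.1.2 t ht with (q1 | q1) | q1
    · exact q1
    · exact absurd h q1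
    · exact absurd h' q1
  · intro a ha h b hb hab hX c hc hac hY
    rcases (H a ha).1.1.2 with q1 | q1
    · exact absurd h q1
    rcases q1 b hb with (q2 | q2) | q2
    · exact absurd hab q2
    · exact absurd hX q2
    rcases q2 c hc with (q3 | q3) | q3
    · exact absurd hac q3
    · exact absurd hY q3
    · exact q3
  · intro b hb h a ha hba hX c hc hbc hY
    rcases (H b hb).1.2 with q1 | q1
    · exact absurd h q1
    rcases q1 a ha with (q2 | q2) | q2
    · exact absurd hba q2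
    · exact absurd hX q2
    rcases q2 c hc with (q3 | q3) | q3
    · exact absurd hbc q3
    · exact absurd hY q3
    · exact q3
  · intro c hc h a ha hca hY b hb hcb hX
    rcases (H c hc).2 with q1 | q1
    · exact absurd h q1
    rcases q1 a ha with (q2 | q2) | q2
    · exact absurd hca q2
    · exact absurd hY q2
    rcases q2 b hb with (q3 | q3) | q3
    · exact absurd hcb q3
    · exact absurd hX q3
    · exact q3

end Pool.Agent.H523R2.Corner
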