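import Pool.Agent.H523R2.Corner.Codes

/-!
The certificate: 133 cells of the addition table of `F_2^4`, in peeling order, with weights.
-/

namespace Pool.Agent.H523R2.Corner.Data4

open Pool.Agent.H523R2.Corner

/-- rows of the cells, 4 binary digits each -/
def cx (s : ℕ) : ℕ := (7711599277911366573805480393308103336877263450333159090172440877253793249334035902991013855239499979131150590809436168392612372058373358259921123677972805720815 >>> (4 * s)) % 16
/-- columns of the cells -/
def cy (s : ℕ) : ℕ := (11212499656161342467647532146383961870922086777750507277198323231878053735411830627242884733225258161449668645680131712442975185738507003641712509517302209930616 >>> (4 * s)) % 16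
/-- type of the free edge of a cell -/
def ce (s : ℕ) : ℕ := (1809702171435662377254287120775745026715934708376086173333686235486394777624 >>> (2 * s)) % 4
/-- weights of the rows, times 1000000000 -/
def wa (x : ℕ) : ℕ := (2881040128333547012311967853635331158269480019688773042075569838306002431312071535834092241314758886876292090231798549571260977076693734894718490 >>> (30 * x)) % 1073741824
/-- weights of the columns, times 1000000000 -/
def wb (x : ℕ) : ℕ := (2880267990100083054279097491600960687611287004811572069805818560759928262573984441870622984240401264983769798854450118468938246744935131515399846 >>> (30 * x)) % 1073741824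
/-- weights of the symbols, times 1000000000 -/
def wc (x : ℕ) : ℕ := (2879871104178188554072575814309246674927144658007891765273495825114869410327861458176476689465361528620700244384874319723055110227826056742766315 >>> (30 * x)) % 1073741824

set_option maxRecDepth 100000 in
theorem main_cert : ∃ n0 : ℕ, ∀ n : ℕ, n0 ≤ n →
    ∃ S : Finset ((Fin n → ZMod 2) × (Fin n → ZMod 2)),
      CornerFree S ∧ 2 ^ (3 * 179 * n) ≤ S.card ^ 300 := by
  refine main_chk (k := 4) (m := 133) (D := 1000000000) (p := 300) (q := 179) cx cy ce wa wb wc
    (by norm_num) (by norm_num) (by norm_num) ?_ ?_ ?_ ?_ ?_
  all_goals decide +kernel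

end Pool.Agent.H523R2.Corner.Data4
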