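import Pool.Agent.H523R2.Corner.Compress

/-!
Peeling certificates, type classes of words, and the resulting corner-free sets.
-/

namespace Pool.Agent.H523R2.Corner

open Finset

/-- A peeling certificate: the cells `0, 1, 2, …` can be deleted in this order, each one having,
at the moment of its deletion, an edge lying in no other triangle. -/
structure Cert {B : Type*} [AddCommGroup B] {m : ℕ} (X Y Z : Fin m → B)
    (cert : Fin m → Fin 3) : Prop where
  sum : ∀ s, X s + Y s + Z s = 0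
  inj : ∀ s t, X s = X t → Y s = Y t → s = t
  c0 : ∀ a b c, X a = X b → Y a = Y c → Z b = Z c → a ≤ b → a ≤ c → cert a = 0 → b = a ∧ c = a
  c1 : ∀ a b c, X a = X b → Y a = Y c → Z b = Z c → b ≤ a → b ≤ c → cert b = 1 → a = b ∧ c = b
  c2 : ∀ a b c, X a = X b → Y a = Y c → Z b = Z c → c ≤ a → c ≤ b → cert c = 2 → a = c ∧ b = c

/-- same type -/
def SameType {N m : ℕ} (u v : Fin N → Fin m) : Prop :=
  ∀ s, (univ.filter (fun i => u i = s)).card = (univ.filter (fun i => v i = s)).card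

lemma filter_eq_of {N m : ℕ} {u v : Fin N → Fin m} (h : SameType u v) (s : Fin m)
    (hs : ∀ i, u i = s → v i = s) : ∀ i, v i = s → u i = s := by
  have h1 : (univ.filter (fun i => u i = s)) = (univ.filter (fun i => v i = s)) := by
    apply eq_of_subset_of_card_le
    · intro i hi
      rw [mem_filter] at hi ⊢
      exact ⟨hi.1, hs i hi.2⟩
    · exact (h s).ge
  intro i hi
  have : i ∈ (univ.filter (fun i => v i = s)) := mem_filter.2 ⟨mem_univ _, hi⟩
  rw [← h1] at this
  exact (mem_filter.1 this).2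

lemma rigid {B : Type*} [AddCommGroup B] {m N : ℕ} {X Y Z : Fin m → B} {cert : Fin m → Fin 3}
    (hc : Cert X Y Z cert) (u v w : Fin N → Fin m) (huv : SameType u v) (huw : SameType u w)
    (hX : ∀ i, X (u i) = X (v i)) (hY : ∀ i, Y (u i) = Y (w i)) (hZ : ∀ i, Z (v i) = Z (w i)) :
    ∀ s : Fin m, ∀ i, (u i = s ∨ v i = s ∨ w i = s) → (u i = s ∧ v i = s ∧ w i = s) := by
  intro s
  induction s using WellFoundedLT.induction with
  | ind s IH =>
    have hmin : ∀ i, (u i = s ∨ v i = s ∨ w i = s) → s ≤ u i ∧ s ≤ v i ∧ s ≤ w i := by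
      intro i hi
      refine ⟨?_, ?_, ?_⟩
      · by_contra hlt
        push Not at hlt
        obtain ⟨h1, h2, h3⟩ := IH (u i) hlt i (Or.inl rfl)
        rcases hi with h | h | h
        · exact absurd h (ne_of_lt hlt)
        · rw [h] at h2; exact absurd h2.symm (ne_of_lt hlt)
        · rw [h] at h3; exact absurd h3.symm (ne_of_lt hlt)
      · by_contra hlt
        push Not at hlt
        obtain ⟨h1, h2, h3⟩ := IH (v i) hlt i (Or.inr (Or.inl rfl))
        rcases hi with h | h | h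
        · rw [h] at h1; exact absurd h1.symm (ne_of_lt hlt)
        · exact absurd h (ne_of_lt hlt)
        · rw [h] at h3; exact absurd h3.symm (ne_of_lt hlt)
      · by_contra hlt
        push Not at hlt
        obtain ⟨h1, h2, h3⟩ := IH (w i) hlt i (Or.inr (Or.inr rfl))
        rcases hi with h | h | h
        · rw [h] at h1; exact absurd h1.symm (ne_of_lt hlt)
        · rw [h] at h2; exact absurd h2.symm (ne_of_lt hlt)
        · exact absurd h (ne_of_lt hlt)
    have h3 : cert s = 0 ∨ cert s = 1 ∨ cert s = 2 := by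
      generalize cert s = e; revert e; decide
    rcases h3 with h | h | h
    · have key : ∀ i, u i = s → v i = s ∧ w i = s := by
        intro i hi
        obtain ⟨_, m2, m3⟩ := hmin i (Or.inl hi)
        have := hc.c0 (u i) (v i) (w i) (hX i) (hY i) (hZ i) (hi ▸ m2) (hi ▸ m3) (hi ▸ h)
        exact ⟨this.1.trans hi, this.2.trans hi⟩
      have k1 := filter_eq_of huv s (fun i hi => (key i hi).1)
      have k2 := filter_eq_of huw s (fun i hi => (key i hi).2)
      intro i hi
      have hu : u i = s := by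
        rcases hi with h | h | h
        · exact h
        · exact k1 i h
        · exact k2 i h
      exact ⟨hu, key i hu⟩
    · have hvu : SameType v u := fun s => (huv s).symm
      have hvw : SameType v w := fun s => (huv s).symm.trans (huw s)
      have key : ∀ i, v i = s → u i = s ∧ w i = s := by
        intro i hi
        obtain ⟨m1, _, m3⟩ := hmin i (Or.inr (Or.inl hi))
        have := hc.c1 (u i) (v i) (w i) (hX i) (hY i) (hZ i) (hi ▸ m1) (hi ▸ m3) (hi ▸ h)
        exact ⟨this.1.trans hi, this.2.trans hi⟩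
      have k1 := filter_eq_of hvu s (fun i hi => (key i hi).1)
      have k2 := filter_eq_of hvw s (fun i hi => (key i hi).2)
      intro i hi
      have hv : v i = s := by
        rcases hi with h | h | h
        · exact k1 i h
        · exact h
        · exact k2 i h
      exact ⟨(key i hv).1, hv, (key i hv).2⟩
    · have hwu : SameType w u := fun s => (huw s).symm
      have hwv : SameType w v := fun s => (huw s).symm.trans (huv s)
      have key : ∀ i, w i = s → u i = s ∧ v i = s := by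
        intro i hi
        obtain ⟨m1, m2, _⟩ := hmin i (Or.inr (Or.inr hi))
        have := hc.c2 (u i) (v i) (w i) (hX i) (hY i) (hZ i) (hi ▸ m1) (hi ▸ m2) (hi ▸ h)
        exact ⟨this.1.trans hi, this.2.trans hi⟩
      have k1 := filter_eq_of hwu s (fun i hi => (key i hi).1)
      have k2 := filter_eq_of hwv s (fun i hi => (key i hi).2)
      intro i hi
      have hw : w i = s := by
        rcases hi with h | h | h
        · exact k1 i h
        · exact k2 i h
        · exact h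
      exact ⟨(key i hw).1, (key i hw).2, hw⟩

/-- the rigid set attached to a set of words of one type -/
lemma hasTF_words {B : Type*} [AddCommGroup B] [DecidableEq B] {m N : ℕ} {X Y Z : Fin m → B}
    {cert : Fin m → Fin 3} (hc : Cert X Y Z cert) (W : Finset (Fin N → Fin m))
    (hW : ∀ u ∈ W, ∀ v ∈ W, SameType u v) :
    HasTF (Fin N → B) W.card (W.image (fun u => fun i => X (u i))).card
      (W.image (fun u => fun i => Y (u i))).card (W.image (fun u => fun i => Z (u i))).card := by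
  let f : (Fin N → Fin m) → (Fin N → B) × (Fin N → B) × (Fin N → B) :=
    fun u => (fun i => X (u i), fun i => Y (u i), fun i => Z (u i))
  have hf : Function.Injective f := by
    intro u v h
    simp only [f, Prod.mk.injEq] at h
    funext i
    exact hc.inj _ _ (congrFun h.1 i) (congrFun h.2.1 i)
  refine ⟨W.image f, ⟨?_, ?_⟩, ?_, ?_, ?_, ?_⟩
  · intro t ht
    obtain ⟨u, hu, rfl⟩ := mem_image.1 ht
    funext i
    exact hc.sum (u i)
  · intro a' ha' b' hb' c' hc' h1 h2 h3
    obtain ⟨u, hu, rfl⟩ := mem_image.1 ha'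
    obtain ⟨v, hv, rfl⟩ := mem_image.1 hb'
    obtain ⟨w, hw, rfl⟩ := mem_image.1 hc'
    have := rigid hc u v w (hW u hu v hv) (hW u hu w hw) (fun i => congrFun h1 i)
      (fun i => congrFun h2 i) (fun i => congrFun h3 i)
    funext i
    have k := this (u i) i (Or.inl rfl)
    show Z (u i) = Z (v i)
    rw [k.2.1]
  · rw [card_image_of_injective _ hf]
  · rw [image_image]; exact le_rfl
  · rw [image_image]; exact le_rfl
  · rw [image_image]; exact le_rfl

lemma prod_type {N m : ℕ} (f : Fin m → ℝ) (u : Fin N → Fin m) :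
    ∏ i, f (u i) = ∏ s, f s ^ (univ.filter (fun i => u i = s)).card := by
  rw [← prod_fiberwise (s := (univ : Finset (Fin N))) (g := u) (f := fun i => f (u i))]
  apply prod_congr rfl
  intro s _
  rw [prod_congr rfl (g := fun _ => f s)]
  · rw [prod_const]
  · intro i hi
    rw [(mem_filter.1 hi).2]

lemma prod_sameType {N m : ℕ} (f : Fin m → ℝ) (u v : Fin N → Fin m) (h : SameType u v) :
    ∏ i, f (u i) = ∏ i, f (v i) := by
  rw [prod_type, prod_type]
  exact prod_congr rfl fun s _ => by rw [h s]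

lemma exists_type {m : ℕ} (N : ℕ) (g : Fin m → ℝ) :
    ∃ W : Finset (Fin N → Fin m), (∀ u ∈ W, ∀ v ∈ W, SameType u v) ∧
      (∑ s, g s) ^ N ≤ (N + 1 : ℝ) ^ m * ∑ u ∈ W, ∏ i, g (u i) := by
  classical
  let τ : (Fin N → Fin m) → (Fin m → Fin (N + 1)) := fun u s =>
    ⟨(univ.filter (fun i => u i = s)).card, by
      have := card_filter_le (univ : Finset (Fin N)) (fun i => u i = s)
      rw [card_univ, Fintype.card_fin] at this
      omega⟩
  have h1 : (∑ s, g s) ^ N = ∑ t : Fin m → Fin (N + 1),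
      ∑ u ∈ univ.filter (fun u => τ u = t), ∏ i, g (u i) := by
    rw [Finset.sum_fiberwise, Fintype.sum_pow]
  have hpos : (0 : ℝ) < (N + 1 : ℝ) ^ m := by positivity
  obtain ⟨t, _, ht⟩ : ∃ t ∈ (univ : Finset (Fin m → Fin (N + 1))),
      (∑ s, g s) ^ N / (N + 1 : ℝ) ^ m ≤
        ∑ u ∈ univ.filter (fun u => τ u = t), ∏ i, g (u i) := by
    apply exists_le_of_sum_le univ_nonempty
    rw [← h1, sum_const, card_univ, Fintype.card_fun, Fintype.card_fin, Fintype.card_fin,
      nsmul_eq_mul]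
    push_cast
    rw [mul_div_cancel₀ _ hpos.ne']
  refine ⟨univ.filter (fun u => τ u = t), ?_, ?_⟩
  · intro u hu v hv s
    have e1 := (mem_filter.1 hu).2
    have e2 := (mem_filter.1 hv).2
    have := congrFun (e1.trans e2.symm) s
    simpa [τ] using this
  · rw [div_le_iff₀ hpos] at ht
    linarith [mul_comm ((N + 1 : ℝ) ^ m) (∑ u ∈ univ.filter (fun u => τ u = t), ∏ i, g (u i))]

lemma card_image_mul_le {B : Type*} [Fintype B] [DecidableEq B] {m N : ℕ} (X : Fin m → B)
    (a : B → ℝ) (ha : ∀ x, 0 ≤ a x) (p : ℕ) (hp : ∑ x, a x ^ p ≤ 1)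
    (W : Finset (Fin N → Fin m)) (α : ℝ) (hα : ∀ u ∈ W, ∏ i, a (X (u i)) = α) :
    ((W.image (fun u => fun i => X (u i))).card : ℝ) * α ^ p ≤ 1 := by
  calc ((W.image (fun u => fun i => X (u i))).card : ℝ) * α ^ p
      = ∑ x ∈ W.image (fun u => fun i => X (u i)), ∏ i, a (x i) ^ p := by
        rw [← nsmul_eq_mul, ← sum_const]
        apply sum_congr rfl
        intro x hx
        obtain ⟨u, hu, rfl⟩ := mem_image.1 hx
        rw [prod_pow, hα u hu]
    _ ≤ ∑ x : Fin N → B, ∏ i, a (x i) ^ p :=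
        sum_le_univ_sum_of_nonneg fun x => prod_nonneg fun i _ => pow_nonneg (ha _) _
    _ = (∑ x, a x ^ p) ^ N := by rw [Fintype.sum_pow]
    _ ≤ 1 := pow_le_one₀ (sum_nonneg fun x _ => pow_nonneg (ha _) _) hp

theorem exists_good {B : Type*} [AddCommGroup B] [Fintype B] [DecidableEq B] {m : ℕ}
    {X Y Z : Fin m → B} {cert : Fin m → Fin 3} (hc : Cert X Y Z cert) (a b c : B → ℝ)
    (ha : ∀ x, 0 ≤ a x) (hb : ∀ x, 0 ≤ b x) (hcc : ∀ x, 0 ≤ c x) (p q : ℕ) (hp : 0 < p) (hq : 0 < q)
    (ha1 : ∑ x, a x ^ p ≤ 1) (hb1 : ∑ x, b x ^ p ≤ 1) (hc1 : ∑ x, c x ^ p ≤ 1)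
    (hC : 1 < ∑ s, (a (X s) * b (Y s) * c (Z s)) ^ q) :
    ∃ N t A1 B1 C1 : ℕ, HasTF (Fin N → B) t A1 B1 C1 ∧ 2 * (A1 * B1 * C1) ^ q ≤ t ^ p ∧
      2 ≤ A1 * B1 * C1 := by
  classical
  set C := ∑ s, (a (X s) * b (Y s) * c (Z s)) ^ q with hCdef
  -- choose N
  obtain ⟨N, hN⟩ : ∃ N : ℕ, 2 * (N + 1 : ℝ) ^ m ≤ C ^ N := by
    have h := tendsto_pow_const_div_const_pow_of_one_lt m hC
    have h2 := (h.comp (Filter.tendsto_add_atTop_nat 1)).eventually
      (gt_mem_nhds (show (0 : ℝ) < 1 / (2 * C) by positivity))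
    obtain ⟨N, hN⟩ := h2.exists
    refine ⟨N, ?_⟩
    simp only [Function.comp, Nat.cast_add, Nat.cast_one] at hN
    have hCpos : (0 : ℝ) < C := by linarith
    rw [div_lt_div_iff₀ (by positivity) (by positivity), pow_succ] at hN
    have : (2 * (N + 1 : ℝ) ^ m) * C ≤ C ^ N * C := by linarith
    exact le_of_mul_le_mul_right this hCpos
  obtain ⟨W, hW, hsum⟩ := exists_type N (fun s => (a (X s) * b (Y s) * c (Z s)) ^ q)
  have hWne : W.Nonempty := by
    by_contra h
    rw [not_nonempty_iff_eq_empty] at h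
    rw [h, sum_empty, mul_zero] at hsum
    have : (0 : ℝ) < 2 * (N + 1 : ℝ) ^ m := by positivity
    linarith
  obtain ⟨u0, hu0⟩ := hWne
  set α := ∏ i, a (X (u0 i)) with hαd
  set β := ∏ i, b (Y (u0 i)) with hβd
  set γ := ∏ i, c (Z (u0 i)) with hγd
  have hα : ∀ u ∈ W, ∏ i, a (X (u i)) = α := fun u hu =>
    prod_sameType (fun s => a (X s)) u u0 (hW u hu u0 hu0)
  have hβ : ∀ u ∈ W, ∏ i, b (Y (u i)) = β := fun u hu =>
    prod_sameType (fun s => b (Y s)) u u0 (hW u hu u0 hu0)
  have hγ : ∀ u ∈ W, ∏ i, c (Z (u i)) = γ := fun u hu =>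
    prod_sameType (fun s => c (Z s)) u u0 (hW u hu u0 hu0)
  have hα0 : 0 ≤ α := prod_nonneg fun i _ => ha _
  have hβ0 : 0 ≤ β := prod_nonneg fun i _ => hb _
  have hγ0 : 0 ≤ γ := prod_nonneg fun i _ => hcc _
  have hsum2 : ∑ u ∈ W, ∏ i, (a (X (u i)) * b (Y (u i)) * c (Z (u i))) ^ q
      = (W.card : ℝ) * (α * β * γ) ^ q := by
    rw [← nsmul_eq_mul, ← sum_const]
    apply sum_congr rfl
    intro u hu
    rw [prod_pow, prod_mul_distrib, prod_mul_distrib, hα u hu, hβ u hu, hγ u hu]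
  rw [hsum2] at hsum
  have hNpos : (0 : ℝ) < (N + 1 : ℝ) ^ m := by positivity
  have ht : 2 ≤ (W.card : ℝ) * (α * β * γ) ^ q := by
    have : (N + 1 : ℝ) ^ m * 2 ≤ (N + 1 : ℝ) ^ m * ((W.card : ℝ) * (α * β * γ) ^ q) := by
      linarith
    exact le_of_mul_le_mul_left this hNpos
  set A1 := (W.image (fun u => fun i => X (u i))).card with hA1
  set B1 := (W.image (fun u => fun i => Y (u i))).card with hB1
  set C1 := (W.image (fun u => fun i => Z (u i))).card with hC1
  have eA : (A1 : ℝ) * α ^ p ≤ 1 := card_image_mul_le X a ha p ha1 W α hα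
  have eB : (B1 : ℝ) * β ^ p ≤ 1 := card_image_mul_le Y b hb p hb1 W β hβ
  have eC : (C1 : ℝ) * γ ^ p ≤ 1 := card_image_mul_le Z c hcc p hc1 W γ hγ
  have hA1pos : 1 ≤ A1 := card_pos.2 ⟨_, mem_image_of_mem _ hu0⟩
  have hB1pos : 1 ≤ B1 := card_pos.2 ⟨_, mem_image_of_mem _ hu0⟩
  have hC1pos : 1 ≤ C1 := card_pos.2 ⟨_, mem_image_of_mem _ hu0⟩
  have one_of : ∀ (k : ℕ) (x : ℝ), 1 ≤ k → 0 ≤ x → (k : ℝ) * x ^ p ≤ 1 → x ≤ 1 := by
    intro k x hk hx h
    by_contra hcon
    push Not at hcon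
    have h1 : 1 < x ^ p := one_lt_pow₀ hcon hp.ne'
    have h2 : (1 : ℝ) ≤ k := by exact_mod_cast hk
    nlinarith
  have hα1 := one_of A1 α hA1pos hα0 eA
  have hβ1 := one_of B1 β hB1pos hβ0 eB
  have hγ1 := one_of C1 γ hC1pos hγ0 eC
  have hπ0 : 0 ≤ α * β * γ := by positivity
  have hπ1 : α * β * γ ≤ 1 := by
    have h1 : α * β ≤ 1 := mul_le_one₀ hα1 hβ0 hβ1
    exact mul_le_one₀ h1 hγ0 hγ1
  have hcard2 : 2 ≤ W.card := by
    have h1 : (α * β * γ) ^ q ≤ 1 := pow_le_one₀ hπ0 hπ1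
    have h2 : (2 : ℝ) ≤ W.card := by
      have h3 : (W.card : ℝ) * (α * β * γ) ^ q ≤ (W.card : ℝ) * 1 :=
        mul_le_mul_of_nonneg_left h1 (Nat.cast_nonneg _)
      linarith
    exact_mod_cast h2
  have hP : ((A1 * B1 * C1 : ℕ) : ℝ) * (α * β * γ) ^ p ≤ 1 := by
    push_cast
    calc (A1 : ℝ) * B1 * C1 * (α * β * γ) ^ p
        = (A1 * α ^ p) * (B1 * β ^ p) * (C1 * γ ^ p) := by ring
      _ ≤ 1 := by
        have h1 : (A1 * α ^ p) * (B1 * β ^ p) ≤ 1 :=
          mul_le_one₀ eA (by positivity) eB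
        exact mul_le_one₀ h1 (by positivity) eC
  refine ⟨N, W.card, A1, B1, C1, hasTF_words hc W hW, ?_, ?_⟩
  · have hπpos : 0 < (α * β * γ) ^ (p * q) := by
      rcases hπ0.eq_or_lt with h | h
      · exfalso
        rw [← h, zero_pow hq.ne', mul_zero] at ht
        linarith
      · exact pow_pos h _
    have h1 : ((A1 * B1 * C1 : ℕ) : ℝ) ^ q * (α * β * γ) ^ (p * q) ≤ 1 := by
      rw [pow_mul, ← mul_pow]
      exact pow_le_one₀ (by positivity) hP
    have h2 : (2 : ℝ) ≤ (W.card : ℝ) ^ p * (α * β * γ) ^ (p * q) := by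
      rw [mul_comm p q, pow_mul, ← mul_pow]
      calc (2 : ℝ) ≤ 2 ^ p := le_self_pow₀ (by norm_num) hp.ne'
        _ ≤ _ := pow_le_pow_left₀ (by norm_num) ht p
    have h3 : (2 * ((A1 * B1 * C1 : ℕ) : ℝ) ^ q) * (α * β * γ) ^ (p * q)
        ≤ (W.card : ℝ) ^ p * (α * β * γ) ^ (p * q) := by nlinarith
    have h4 := le_of_mul_le_mul_right h3 hπpos
    exact_mod_cast h4
  · have h1 : W.card ≤ A1 * B1 := by
      rw [hA1, hB1, ← card_product]
      apply card_le_card_of_injOn (fun u => ((fun i => X (u i)), (fun i => Y (u i))))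
      · intro u hu
        exact mem_product.2 ⟨mem_image_of_mem _ hu, mem_image_of_mem _ hu⟩
      · intro u _ v _ h
        simp only [Prod.mk.injEq] at h
        funext i
        exact hc.inj _ _ (congrFun h.1 i) (congrFun h.2 i)
    calc 2 ≤ A1 * B1 := hcard2.trans h1
      _ ≤ A1 * B1 * C1 := Nat.le_mul_of_pos_right _ hC1pos

end Pool.Agent.H523R2.Corner
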